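import Pool.Agent.H45.AD.Stm4

set_option autoImplicit false

namespace Pool.Agent.H32.AD.AV

open Pool.Agent.H45.AD Pool.Agent.H45.RQ Filter NumberField Polynomial

theorem Tk_le (d k : ℕ) : Tk d k ≤ hnum d := by
  unfold Tk hnum
  exact Nat.card_le_card_of_injective _ Subtype.val_injective

theorem ev_floor (θ : ℝ) (hθ : 0 < θ) : ∀ᶠ N : ℕ in atTop, 2 ≤ (N : ℝ) ^ θ ∧
    (N : ℝ) ^ θ / 2 ≤ (⌊(N : ℝ) ^ θ⌋₊ : ℝ) ∧ (⌊(N : ℝ) ^ θ⌋₊ : ℝ) ≤ (N : ℝ) ^ θ := by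
  have h1 : Tendsto (fun N : ℕ => (N : ℝ) ^ θ) atTop atTop :=
    (tendsto_rpow_atTop hθ).comp tendsto_natCast_atTop_atTop
  filter_upwards [h1.eventually_ge_atTop 2] with N hN
  refine ⟨hN, ?_, Nat.floor_le (by linarith)⟩
  have := Nat.lt_floor_add_one ((N : ℝ) ^ θ)
  linarith

theorem ev_log (K a : ℝ) (hK : 0 < K) (ha : 0 < a) : ∀ᶠ N : ℕ in atTop,
    K * (1 + Real.log (2 * N)) ≤ (N : ℝ) ^ a := by
  have h1 : ∀ᶠ x : ℝ in atTop, ‖Real.log x‖ ≤ 1 / (2 * K) * ‖x ^ a‖ :=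
    (isLittleO_log_rpow_atTop ha).bound (by positivity)
  filter_upwards [tendsto_natCast_atTop_atTop (R := ℝ) |>.eventually h1,
    eventually_ge_atTop 8] with N hN h8
  have h8r : (8 : ℝ) ≤ N := by exact_mod_cast h8
  have hl : 0 ≤ Real.log N := Real.log_nonneg (by linarith)
  rw [Real.norm_of_nonneg hl, Real.norm_of_nonneg (by positivity)] at hN
  have h2 : 1 + Real.log (2 * N) ≤ 2 * Real.log N := by
    rw [Real.log_mul (by norm_num) (by linarith)]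
    have h3 : Real.log 8 ≤ Real.log N := Real.log_le_log (by norm_num) h8r
    have h4 : Real.log 8 = 3 * Real.log 2 := by
      rw [show (8 : ℝ) = 2 ^ (3 : ℕ) by norm_num, Real.log_pow]; norm_num
    have h5 := Real.log_two_gt_d9
    linarith
  calc K * (1 + Real.log (2 * N)) ≤ K * (2 * Real.log N) := mul_le_mul_of_nonneg_left h2 hK.le
    _ ≤ K * (2 * (1 / (2 * K) * (N : ℝ) ^ a)) := by gcongr
    _ = (N : ℝ) ^ a := by field_simp

theorem ev_log2 (θ : ℝ) (hθ : 0 < θ) : ∀ᶠ N : ℕ in atTop,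
    Real.log N ^ 2 ≤ (N : ℝ) ^ θ / 2 := by
  have h1 : ∀ᶠ x : ℝ in atTop, ‖Real.log x ^ (2 : ℝ)‖ ≤ 1 / 2 * ‖x ^ θ‖ :=
    (isLittleO_log_rpow_rpow_atTop 2 hθ).bound (by norm_num)
  filter_upwards [tendsto_natCast_atTop_atTop (R := ℝ) |>.eventually h1,
    eventually_ge_atTop 1] with N hN h8
  rw [Real.norm_of_nonneg (by positivity)] at hN
  rw [Real.rpow_two, Real.norm_of_nonneg (by positivity)] at hN
  linarith

theorem alg (H s b : ℝ) (hs : s ≠ 0) : 2 * H * (s + b) / s ^ 2 = 2 * H * (1 / s + b / s ^ 2) := by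
  field_simp

theorem alg2 (x y z : ℝ) (hy : 0 ≤ y) (h : x ≤ z) : 2 * x * y ≤ 2 * z * y := by
  nlinarith

/-- one discriminant with many split primes (real numbers) -/
theorem alg3 (T s b H M : ℝ) (hM : 0 < M) (hs : M ≤ s) (hb0 : 0 ≤ b) (hH0 : 0 ≤ H)
    (h2 : s ^ 2 * T ≤ 2 * H * (s + b)) : T ≤ 2 * H * (1 / M + b / M ^ 2) := by
  have hs0 : 0 < s := lt_of_lt_of_le hM hs
  have h3 : T ≤ 2 * H * (1 / s + b / s ^ 2) := by
    have h4 : T = s ^ 2 * T / s ^ 2 := (mul_div_cancel_left₀ _ (pow_pos hs0 2).ne').symm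
    rw [h4, ← alg H s b hs0.ne']
    exact div_le_div_of_nonneg_right h2 (by positivity)
  refine h3.trans ?_
  apply mul_le_mul_of_nonneg_left _ (by positivity)
  have h5 : 1 / s ≤ 1 / M := one_div_le_one_div_of_le hM hs
  have h6 : b / s ^ 2 ≤ b / M ^ 2 := by
    apply div_le_div_of_nonneg_left hb0 (by positivity)
    exact pow_le_pow_left₀ hM.le hs 2
  linarith

/-- one discriminant with many split primes -/
theorem pt (hPG : StmtPG) (d Y k : ℕ) (h16 : 16 ≤ d) (hsf : Squarefree d) (hk : 1 ≤ k) (hY : 1 ≤ Y)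
    (H M : ℝ) (hM : 0 < M) (hH : hnum d * Units.regulator (QS d) ≤ H)
    (hs : M ≤ ((spl d Y).card : ℝ)) :
    (Tk d k : ℝ) ≤ 2 * H * (1 / M + (bad d Y k).card / M ^ 2) := by
  have h1 := hPG d Y k h16 hsf hk hY
  have hb0 : (0 : ℝ) ≤ ((bad d Y k).card : ℝ) := Nat.cast_nonneg _
  have hs0 : (0 : ℝ) ≤ ((spl d Y).card : ℝ) := Nat.cast_nonneg _
  have hH0 : 0 ≤ H := le_trans (mul_nonneg (Nat.cast_nonneg _) (Units.regulator_pos _).le) hH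
  apply alg3 _ _ _ H M hM hs hb0 hH0
  refine h1.trans ?_
  rw [mul_assoc 2 (hnum d : ℝ)]
  exact alg2 _ _ _ (add_nonneg hs0 hb0) hH

theorem t (hPG : StmtPG) (hS2 : StmtS2) (hBA : StmtBA) (hHR : StmtHR) : StmtAV := by
  classical
  intro k ε hk hε
  have hk5 : (5 : ℝ) ≤ k := by exact_mod_cast hk
  obtain ⟨θ, hθ⟩ : ∃ θ : ℝ, θ = 3 / (2 * (k : ℝ) + 2) := ⟨_, rfl⟩
  have hkk : (0 : ℝ) < 2 * (k : ℝ) + 2 := by linarith
  have hθ0 : 0 < θ := by rw [hθ]; positivity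
  have hθ4 : θ ≤ 1 / 4 := by
    rw [hθ, div_le_iff₀ hkk]; linarith
  have hθk : θ * k = 3 / 2 - θ := by
    rw [hθ]; field_simp; ring
  obtain ⟨e1, he1⟩ : ∃ e1 : ℝ, e1 = min (1 / 2) (ε / 2) := ⟨_, rfl⟩
  have he10 : 0 < e1 := by rw [he1]; exact lt_min (by norm_num) (by linarith)
  have he11 : e1 ≤ 1 / 2 := by rw [he1]; exact min_le_left _ _
  have he12 : e1 ≤ ε / 2 := by rw [he1]; exact min_le_right _ _
  obtain ⟨C1, hC1, h1⟩ := h_triv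
  obtain ⟨C2, hC2, h2⟩ := hHR
  obtain ⟨C, hC⟩ : ∃ C : ℝ, C = max C1 C2 := ⟨_, rfl⟩
  have hCC1 : C1 ≤ C := by rw [hC]; exact le_max_left _ _
  have hCC2 : C2 ≤ C := by rw [hC]; exact le_max_right _ _
  have hC0 : 1 ≤ C := hC1.trans hCC1
  obtain ⟨Y₀, hY₀⟩ := hS2 e1 he10
  obtain ⟨N₁, hN₁⟩ := hBA k (ε / 4) (by omega) (by linarith)
  have hY₀ev : ∀ᶠ N : ℕ in atTop, 2 * ((Y₀ : ℝ) + 1) ≤ (N : ℝ) ^ θ :=
    ((tendsto_rpow_atTop hθ0).comp tendsto_natCast_atTop_atTop).eventually_ge_atTop _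
  obtain ⟨N₂, hN₂⟩ := Filter.eventually_atTop.1 ((ev_floor θ hθ0).and ((ev_log (20 * C) (ε / 2)
    (by linarith) (by linarith)).and ((ev_log2 θ hθ0).and hY₀ev)))
  refine ⟨max 16 (max N₁ N₂), fun N hN => ?_⟩
  have hN16 : 16 ≤ N := (le_max_left _ _).trans hN
  have hNN1 : N₁ ≤ N := (le_max_left _ _).trans ((le_max_right _ _).trans hN)
  have hNN2 : N₂ ≤ N := (le_max_right _ _).trans ((le_max_right _ _).trans hN)
  obtain ⟨⟨hf1, hf2, hf3⟩, hlg, hlg2, hYev⟩ := hN₂ N hNN2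
  have hN16r : (16 : ℝ) ≤ N := by exact_mod_cast hN16
  have hN0 : (0 : ℝ) < N := by linarith
  have hN1 : (1 : ℝ) ≤ N := by linarith
  obtain ⟨Y, hY⟩ : ∃ Y : ℕ, Y = ⌊(N : ℝ) ^ θ⌋₊ := ⟨_, rfl⟩
  rw [← hY] at hf2 hf3
  have hY1r : (1 : ℝ) ≤ Y := by linarith
  have hY1 : 1 ≤ Y := by exact_mod_cast hY1r
  have hY0r : (0 : ℝ) < Y := by linarith
  have hYY : Y₀ ≤ Y := by
    have : (Y₀ : ℝ) ≤ Y := by linarith
    exact_mod_cast this
  have hY4 : Y ^ 4 ≤ N := by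
    have : (Y : ℝ) ^ 4 ≤ N := by
      calc (Y : ℝ) ^ 4 ≤ ((N : ℝ) ^ θ) ^ 4 := pow_le_pow_left₀ hY0r.le hf3 4
        _ = (N : ℝ) ^ (θ * 4) := by
          rw [← Real.rpow_natCast, ← Real.rpow_mul hN0.le]; norm_num
        _ ≤ (N : ℝ) ^ (1 : ℝ) := Real.rpow_le_rpow_of_exponent_le hN1 (by linarith)
        _ = N := Real.rpow_one _
    exact_mod_cast this
  have hYN : Y ≤ N := by
    calc Y = Y ^ 1 := (pow_one Y).symm
      _ ≤ Y ^ 4 := Nat.pow_le_pow_right hY1 (by norm_num)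
      _ ≤ N := hY4
  have hS := hY₀ Y N hYY hY4 (by linarith)
  have hB := hN₁ N Y hNN1 hY1 hYN
  obtain ⟨M, hM⟩ : ∃ M : ℝ, M = (Y : ℝ) ^ (1 - e1) := ⟨_, rfl⟩
  have hM0 : 0 < M := by rw [hM]; exact Real.rpow_pos_of_pos hY0r _
  obtain ⟨H, hH⟩ : ∃ H : ℝ, H = C * √(2 * (N : ℝ)) * (1 + Real.log (2 * N)) := ⟨_, rfl⟩
  have hlog0 : 0 ≤ Real.log (2 * (N : ℝ)) := Real.log_nonneg (by linarith)
  have hH0 : 0 ≤ H := by rw [hH]; positivity
  have hHd : ∀ d ∈ Finset.Ioc N (2 * N), ∀ K : ℝ, 1 ≤ K → K ≤ C →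
      K * √(d : ℝ) * (1 + Real.log d) ≤ H := by
    intro d hd K hK1 hKC
    rw [Finset.mem_Ioc] at hd
    have hd1 : (1 : ℝ) ≤ d := by
      have : (N : ℝ) < d := by exact_mod_cast hd.1
      linarith
    have hd2 : (d : ℝ) ≤ 2 * N := by exact_mod_cast hd.2
    have hld : 0 ≤ Real.log (d : ℝ) := Real.log_nonneg hd1
    have hld2 : Real.log (d : ℝ) ≤ Real.log (2 * N) := Real.log_le_log (by linarith) hd2
    rw [hH]
    have : √(d : ℝ) ≤ √(2 * (N : ℝ)) := Real.sqrt_le_sqrt hd2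
    gcongr
  -- split the sum
  have hpt : ∀ d ∈ (Finset.Ioc N (2 * N)).filter Squarefree, (Tk d k : ℝ) ≤
      (if ((spl d Y).card : ℝ) < (Y : ℝ) ^ (1 - e1) then H else 0) +
        2 * H * (1 / M + (bad d Y k).card / M ^ 2) := by
    intro d hd
    rw [Finset.mem_filter] at hd
    obtain ⟨hd, hsf⟩ := hd
    have hd' := Finset.mem_Ioc.1 hd
    by_cases hs : ((spl d Y).card : ℝ) < (Y : ℝ) ^ (1 - e1)
    · rw [if_pos hs]
      have h3 : (Tk d k : ℝ) ≤ hnum d := by exact_mod_cast Tk_le d k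
      have h4 := h1 d (by omega) hsf
      have h5 := hHd d hd C1 hC1 hCC1
      have h6 : 0 ≤ 2 * H * (1 / M + (bad d Y k).card / M ^ 2) := by positivity
      linarith
    · rw [if_neg hs, zero_add]
      apply pt hPG d Y k (by omega) hsf (by omega) hY1 H M hM0
      · exact (h2 d (by omega) hsf).trans (hHd d hd C2 hC2 hCC2)
      · rw [hM]; exact not_lt.1 hs
  refine (Finset.sum_le_sum hpt).trans ?_
  have hext : ∑ d ∈ (Finset.Ioc N (2 * N)).filter Squarefree,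
      ((if ((spl d Y).card : ℝ) < (Y : ℝ) ^ (1 - e1) then H else 0) +
        2 * H * (1 / M + (bad d Y k).card / M ^ 2)) ≤
      ∑ d ∈ Finset.Ioc N (2 * N),
      ((if ((spl d Y).card : ℝ) < (Y : ℝ) ^ (1 - e1) then H else 0) +
        2 * H * (1 / M + (bad d Y k).card / M ^ 2)) := by
    apply Finset.sum_le_sum_of_subset_of_nonneg (Finset.filter_subset _ _)
    intro d _ _
    have h6 : 0 ≤ 2 * H * (1 / M + (bad d Y k).card / M ^ 2) := by positivity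
    have h7 : 0 ≤ (if ((spl d Y).card : ℝ) < (Y : ℝ) ^ (1 - e1) then H else 0) := by
      split_ifs
      · exact hH0
      · exact le_rfl
    linarith
  refine hext.trans ?_
  rw [Finset.sum_add_distrib, ← Finset.mul_sum, Finset.sum_add_distrib, Finset.sum_const,
    Nat.card_Ioc, ← Finset.sum_div, ← Finset.sum_filter, Finset.sum_const, nsmul_eq_mul,
    nsmul_eq_mul]
  have hcN : ((2 * N - N : ℕ) : ℝ) = N := by
    congr 1; omega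
  rw [hcN]
  have hcard : ((((Finset.Ioc N (2 * N)).filter
      (fun d => ((spl d Y).card : ℝ) < (Y : ℝ) ^ (1 - e1))).card : ℕ) : ℝ) ≤
      N * (Y : ℝ) ^ (-(1 - e1)) := by
    refine le_trans (le_of_eq ?_) hS
    congr 1
    rw [← Set.ncard_coe_finset]
    congr 1
    ext d
    rw [Finset.mem_coe, Finset.mem_filter, Finset.mem_Ioc]
    constructor
    · rintro ⟨⟨a, b⟩, c⟩; exact ⟨a, b, c⟩
    · rintro ⟨a, b, c⟩; exact ⟨⟨a, b⟩, c⟩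
  -- the estimates
  have hYinv : (Y : ℝ) ^ (-(1 - e1)) ≤ 2 * (N : ℝ) ^ (-θ + θ * e1) := by
    have h3 : (Y : ℝ) ^ (-(1 - e1)) = (Y : ℝ) ^ e1 * (Y : ℝ)⁻¹ := by
      rw [← Real.rpow_neg_one, ← Real.rpow_add hY0r]
      congr 1; ring
    have h4 : (Y : ℝ) ^ e1 ≤ (N : ℝ) ^ (θ * e1) := by
      rw [Real.rpow_mul hN0.le]
      exact Real.rpow_le_rpow hY0r.le hf3 he10.le
    have h5 : (Y : ℝ)⁻¹ ≤ 2 * (N : ℝ) ^ (-θ) := by
      rw [Real.rpow_neg hN0.le]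
      have h6 : (0 : ℝ) < (N : ℝ) ^ θ := by positivity
      calc (Y : ℝ)⁻¹ ≤ ((N : ℝ) ^ θ / 2)⁻¹ := inv_anti₀ (by positivity) hf2
        _ = 2 * ((N : ℝ) ^ θ)⁻¹ := by rw [inv_div]; ring
    rw [h3, Real.rpow_add hN0]
    calc (Y : ℝ) ^ e1 * (Y : ℝ)⁻¹ ≤ (N : ℝ) ^ (θ * e1) * (2 * (N : ℝ) ^ (-θ)) := by gcongr
      _ = 2 * ((N : ℝ) ^ (-θ) * (N : ℝ) ^ (θ * e1)) := by ring
  have hM1 : 1 / M = (Y : ℝ) ^ (-(1 - e1)) := by
    rw [hM, Real.rpow_neg hY0r.le, one_div]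
  obtain ⟨Z, hZ⟩ : ∃ Z : ℝ, Z = (N : ℝ) ^ (1 - θ + ε / 2) := ⟨_, rfl⟩
  have hZ0 : 0 < Z := by rw [hZ]; positivity
  have hθe : θ * e1 ≤ ε / 8 := by nlinarith
  -- first part
  have hA : (N : ℝ) * (Y : ℝ) ^ (-(1 - e1)) ≤ 2 * Z := by
    calc (N : ℝ) * (Y : ℝ) ^ (-(1 - e1)) ≤ N * (2 * (N : ℝ) ^ (-θ + θ * e1)) := by gcongr
      _ = 2 * ((N : ℝ) ^ (1 : ℝ) * (N : ℝ) ^ (-θ + θ * e1)) := by rw [Real.rpow_one]; ring
      _ = 2 * (N : ℝ) ^ (1 + (-θ + θ * e1)) := by rw [← Real.rpow_add hN0]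
      _ ≤ 2 * Z := by
        rw [hZ]
        apply mul_le_mul_of_nonneg_left _ (by norm_num)
        apply Real.rpow_le_rpow_of_exponent_le hN1
        linarith
  -- second part
  have hBM : (∑ d ∈ Finset.Ioc N (2 * N), ((bad d Y k).card : ℝ)) / M ^ 2 ≤ 2 * Z := by
    have h3 : (Y : ℝ) ^ 2 / M ^ 2 ≤ (N : ℝ) ^ (ε / 4) := by
      have h4 : (Y : ℝ) / M = (Y : ℝ) ^ e1 := by
        rw [hM]
        nth_rewrite 1 [← Real.rpow_one (Y : ℝ)]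
        rw [← Real.rpow_sub hY0r]
        congr 1; ring
      rw [← div_pow, h4]
      calc ((Y : ℝ) ^ e1) ^ 2 ≤ (((N : ℝ) ^ θ) ^ e1) ^ 2 := by
            apply pow_le_pow_left₀ (by positivity)
            exact Real.rpow_le_rpow hY0r.le hf3 he10.le
        _ = (N : ℝ) ^ (θ * e1 * 2) := by
            rw [← Real.rpow_mul hN0.le, ← Real.rpow_natCast, ← Real.rpow_mul hN0.le]
            norm_num
        _ ≤ (N : ℝ) ^ (ε / 4) := Real.rpow_le_rpow_of_exponent_le hN1 (by linarith)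
    have h5 : √(N : ℝ) + (Y : ℝ) ^ k / √(N : ℝ) ≤ 2 * (N : ℝ) ^ (1 - θ) := by
      have hs : √(N : ℝ) = (N : ℝ) ^ (1 / 2 : ℝ) := Real.sqrt_eq_rpow _
      have h6 : √(N : ℝ) ≤ (N : ℝ) ^ (1 - θ) := by
        rw [hs]
        exact Real.rpow_le_rpow_of_exponent_le hN1 (by linarith)
      have h7 : (Y : ℝ) ^ k / √(N : ℝ) ≤ (N : ℝ) ^ (1 - θ) := by
        have hsp : 0 < √(N : ℝ) := Real.sqrt_pos.2 hN0
        rw [div_le_iff₀ hsp, hs, ← Real.rpow_add hN0]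
        calc (Y : ℝ) ^ k ≤ ((N : ℝ) ^ θ) ^ k := pow_le_pow_left₀ hY0r.le hf3 k
          _ = (N : ℝ) ^ (θ * k) := by rw [← Real.rpow_natCast, ← Real.rpow_mul hN0.le]
          _ = (N : ℝ) ^ (1 - θ + 1 / 2) := by rw [hθk]; congr 1; ring
      linarith
    calc (∑ d ∈ Finset.Ioc N (2 * N), ((bad d Y k).card : ℝ)) / M ^ 2
        ≤ ((N : ℝ) ^ (ε / 4) * (Y : ℝ) ^ 2 * (√(N : ℝ) + (Y : ℝ) ^ k / √(N : ℝ))) / M ^ 2 := by
          gcongr
      _ = (N : ℝ) ^ (ε / 4) * ((Y : ℝ) ^ 2 / M ^ 2) * (√(N : ℝ) + (Y : ℝ) ^ k / √(N : ℝ)) := by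
          ring
      _ ≤ (N : ℝ) ^ (ε / 4) * (N : ℝ) ^ (ε / 4) * (2 * (N : ℝ) ^ (1 - θ)) := by gcongr
      _ = 2 * Z := by
          rw [hZ, ← Real.rpow_add hN0, mul_left_comm, ← Real.rpow_add hN0]
          congr 2; ring
  have hNM : (N : ℝ) * (1 / M) ≤ 2 * Z := by rw [hM1]; exact hA
  have htot : ((((Finset.Ioc N (2 * N)).filter
      (fun d => ((spl d Y).card : ℝ) < (Y : ℝ) ^ (1 - e1))).card : ℕ) : ℝ) * H +
      2 * H * ((N : ℝ) * (1 / M) + (∑ d ∈ Finset.Ioc N (2 * N), ((bad d Y k).card : ℝ)) / M ^ 2) ≤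
      10 * (H * Z) := by
    have h3 := mul_le_mul_of_nonneg_right (hcard.trans hA) hH0
    have h4 : 2 * H * ((N : ℝ) * (1 / M) +
        (∑ d ∈ Finset.Ioc N (2 * N), ((bad d Y k).card : ℝ)) / M ^ 2) ≤ 2 * H * (2 * Z + 2 * Z) :=
      mul_le_mul_of_nonneg_left (add_le_add hNM hBM) (by positivity)
    linarith
  refine htot.trans ?_
  have hHle : 10 * H ≤ (N : ℝ) ^ (1 / 2 + ε / 2) := by
    have h3 : √(2 * (N : ℝ)) ≤ 2 * (N : ℝ) ^ (1 / 2 : ℝ) := by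
      rw [← Real.sqrt_eq_rpow, Real.sqrt_le_left (by positivity), mul_pow, Real.sq_sqrt hN0.le]
      linarith
    rw [hH, Real.rpow_add hN0]
    calc 10 * (C * √(2 * (N : ℝ)) * (1 + Real.log (2 * N)))
        ≤ 10 * (C * (2 * (N : ℝ) ^ (1 / 2 : ℝ)) * (1 + Real.log (2 * N))) := by gcongr
      _ = (N : ℝ) ^ (1 / 2 : ℝ) * (20 * C * (1 + Real.log (2 * N))) := by ring
      _ ≤ (N : ℝ) ^ (1 / 2 : ℝ) * (N : ℝ) ^ (ε / 2) := by gcongr
  calc 10 * (H * Z) = (10 * H) * Z := by ring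
    _ ≤ (N : ℝ) ^ (1 / 2 + ε / 2) * Z := mul_le_mul_of_nonneg_right hHle hZ0.le
    _ = (N : ℝ) ^ (3 / 2 - 3 / (2 * (k : ℝ) + 2) + ε) := by
      rw [hZ, ← Real.rpow_add hN0, ← hθ]
      congr 1; ring

end Pool.Agent.H32.AD.AV
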