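import Pool.Agent.H45.AD.Stm4

set_option autoImplicit false

namespace Pool.Agent.H32.AD.BA

open Pool.Agent.H45.AD Filter

/-- the solutions -/
def WW (N V : ℕ) (a : ℤ) : Set (ℤ × ℤ) := {w : ℤ × ℤ | 0 ≤ w.1 ∧ 1 ≤ w.2 ∧ w.2 ≤ V ∧ ∃ d : ℤ, N < d ∧ d ≤ 2 * N ∧
      w.1 ^ 2 - d * w.2 ^ 2 = a}

theorem WW_fin (N V : ℕ) (a : ℤ) : (WW N V a).Finite := by
  refine ((Set.finite_Icc (0 : ℤ) (|a| + 2 * N * V ^ 2)).prod (Set.finite_Icc (1 : ℤ) V)).subset ?_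
  rintro ⟨x, y⟩ ⟨h1, h2, h3, d, h4, h5, h6⟩
  simp only at h1 h2 h3 h6
  rw [Set.mem_prod]
  refine ⟨⟨h1, ?_⟩, ⟨h2, h3⟩⟩
  have h7 : y ^ 2 ≤ (V : ℤ) ^ 2 := pow_le_pow_left₀ (by omega) h3 2
  have h8 : 0 ≤ y ^ 2 := sq_nonneg y
  have h9 : d * y ^ 2 ≤ 2 * N * V ^ 2 := by
    calc d * y ^ 2 ≤ 2 * N * y ^ 2 := mul_le_mul_of_nonneg_right h5 h8
      _ ≤ 2 * N * V ^ 2 := mul_le_mul_of_nonneg_left h7 (by positivity)
  have h10 : x ^ 2 ≤ |a| + 2 * N * V ^ 2 := by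
    have := le_abs_self a
    linarith
  show x ≤ |a| + 2 * N * V ^ 2
  nlinarith [sq_nonneg (x - 1)]

open Classical in
/-- the number of the `d` for one right hand side -/
theorem one (N Y k : ℕ) (hN : 1 ≤ N) (a : ℤ) :
    ((Finset.Ioc N (2 * N)).filter (fun d : ℕ => ∃ x y : ℤ, 0 ≤ x ∧ 1 ≤ y ∧
      x ^ 2 - d * y ^ 2 = a ∧ (x : ℝ) + y * √(d : ℝ) ≤ 4 * (Y : ℝ) ^ k)).card ≤
    (WW N ⌊4 * (Y : ℝ) ^ k / √(N : ℝ)⌋₊ a).ncard := by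
  set V := ⌊4 * (Y : ℝ) ^ k / √(N : ℝ)⌋₊ with hV
  set D := (Finset.Ioc N (2 * N)).filter (fun d : ℕ => ∃ x y : ℤ, 0 ≤ x ∧ 1 ≤ y ∧
      x ^ 2 - d * y ^ 2 = a ∧ (x : ℝ) + y * √(d : ℝ) ≤ 4 * (Y : ℝ) ^ k) with hD
  have hex : ∀ d ∈ D, ∃ w : ℤ × ℤ, w ∈ WW N V a ∧ w.1 ^ 2 - d * w.2 ^ 2 = a ∧ 1 ≤ w.2 := by
    intro d hd
    rw [hD, Finset.mem_filter, Finset.mem_Ioc] at hd
    obtain ⟨⟨h1, h2⟩, x, y, hx, hy, he, hle⟩ := hd
    refine ⟨(x, y), ⟨hx, hy, ?_, (d : ℤ), by exact_mod_cast h1, by exact_mod_cast h2, he⟩, he, hy⟩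
    have hsN : 0 < √(N : ℝ) := Real.sqrt_pos.2 (by exact_mod_cast hN)
    have hx' : (0 : ℝ) ≤ x := by exact_mod_cast hx
    have hy' : (1 : ℝ) ≤ y := by exact_mod_cast hy
    have h3 : (y : ℝ) * √(N : ℝ) ≤ y * √(d : ℝ) :=
      mul_le_mul_of_nonneg_left (Real.sqrt_le_sqrt (by exact_mod_cast h1.le)) (by linarith)
    have h4 : (y : ℝ) ≤ 4 * (Y : ℝ) ^ k / √(N : ℝ) := by
      rw [le_div_iff₀ hsN]
      linarith
    have h5 : y.toNat ≤ V := by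
      apply Nat.le_floor
      have : ((y.toNat : ℤ) : ℝ) = (y : ℝ) := by
        rw [Int.toNat_of_nonneg (by omega)]
      rw [Int.cast_natCast] at this
      rw [this]
      exact h4
    show y ≤ (V : ℤ)
    omega
  choose! f hf1 hf2 hf3 using hex
  have hinj : Set.InjOn f (D : Set ℕ) := by
    intro d hd d' hd' h
    have h1 := hf2 d hd
    have h2 := hf2 d' hd'
    have h3 := hf3 d hd
    rw [← h] at h2
    have h4 : (d : ℤ) * (f d).2 ^ 2 = d' * (f d).2 ^ 2 := by linarith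
    have h5 : (f d).2 ^ 2 ≠ 0 := by positivity
    exact_mod_cast mul_right_cancel₀ h5 h4
  have h1 : (D.image f).card = D.card := Finset.card_image_of_injOn hinj
  rw [← h1, ← Set.ncard_coe_finset]
  apply Set.ncard_le_ncard _ (WW_fin N V a)
  intro w hw
  rw [Finset.mem_coe, Finset.mem_image] at hw
  obtain ⟨d, hd, rfl⟩ := hw
  exact hf1 d hd

theorem t (hCT : StmtCT) : StmtBA := by
  classical
  intro k ε hk hε
  set ε' : ℝ := ε / (16 * k + 16) with hε'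
  have hk0 : (0 : ℝ) < 16 * k + 16 := by positivity
  have hε'0 : 0 < ε' := by positivity
  obtain ⟨C, hC, h⟩ := hCT ε' hε'0
  -- the constant
  obtain ⟨N₀, hN₀⟩ := Filter.eventually_atTop.1
    (((tendsto_rpow_atTop (show 0 < ε / 2 by positivity)).comp
      (tendsto_natCast_atTop_atTop (R := ℝ))).eventually_ge_atTop (8 * C * 16 ^ ε'))
  refine ⟨max N₀ 1, fun N Y hN hY hYN => ?_⟩
  have hNN : 8 * C * 16 ^ ε' ≤ (N : ℝ) ^ (ε / 2) := hN₀ N ((le_max_left _ _).trans hN)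
  have hN1 : 1 ≤ N := (le_max_right _ _).trans hN
  have hN1r : (1 : ℝ) ≤ N := by exact_mod_cast hN1
  have hN0r : (0 : ℝ) < N := by linarith
  have hY1r : (1 : ℝ) ≤ Y := by exact_mod_cast hY
  have hYNr : (Y : ℝ) ≤ N := by exact_mod_cast hYN
  have hsN : 0 < √(N : ℝ) := Real.sqrt_pos.2 hN0r
  have hsN1 : 1 ≤ √(N : ℝ) := by rw [Real.one_le_sqrt]; exact hN1r
  set V := ⌊4 * (Y : ℝ) ^ k / √(N : ℝ)⌋₊ with hV
  have hVle : (V : ℝ) ≤ 4 * (Y : ℝ) ^ k / √(N : ℝ) := Nat.floor_le (by positivity)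
  set X : ℝ := √(N : ℝ) + (Y : ℝ) ^ k / √(N : ℝ) with hX
  have hX0 : 0 ≤ X := by positivity
  -- one right hand side
  have hone : ∀ q : ℕ, 1 ≤ q → (q : ℝ) ≤ (Y : ℝ) ^ 2 → ∀ a : ℤ, (a = 4 * (q : ℤ) ^ k ∨ a = -(4 * (q : ℤ) ^ k)) →
      ((WW N V a).ncard : ℝ) ≤ 4 * C * (16 ^ ε' * (N : ℝ) ^ (ε / 2)) * X := by
    intro q hq hqY a ha
    by_cases hV0 : V = 0
    · have : WW N V a = ∅ := by
        rw [Set.eq_empty_iff_forall_notMem]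
        rintro ⟨x, y⟩ ⟨-, h2, h3, -⟩
        simp only at h2 h3
        rw [hV0] at h3
        push_cast at h3
        omega
      rw [this, Set.ncard_empty, Nat.cast_zero]
      positivity
    · have hq0 : (0 : ℤ) < (q : ℤ) ^ k := by positivity
      have ha0 : a ≠ 0 := by
        rcases ha with rfl | rfl
        · positivity
        · have : (0 : ℤ) < 4 * (q : ℤ) ^ k := by positivity
          omega
      have h1 := h N V hN1 (Nat.one_le_iff_ne_zero.2 hV0) a ha0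
      have habs : |(a : ℝ)| = 4 * (q : ℝ) ^ k := by
        rcases ha with rfl | rfl
        · push_cast
          rw [abs_of_nonneg (by positivity)]
        · push_cast
          rw [abs_neg, abs_of_nonneg (by positivity)]
      have h2 : |(a : ℝ)| * V ≤ 16 * (N : ℝ) ^ (3 * k) := by
        rw [habs]
        have h3 : (q : ℝ) ^ k ≤ (N : ℝ) ^ (2 * k) := by
          calc (q : ℝ) ^ k ≤ ((Y : ℝ) ^ 2) ^ k := pow_le_pow_left₀ (by positivity) hqY k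
            _ ≤ ((N : ℝ) ^ 2) ^ k := pow_le_pow_left₀ (by positivity)
                (pow_le_pow_left₀ (by positivity) hYNr 2) k
            _ = (N : ℝ) ^ (2 * k) := by rw [← pow_mul]
        have h4 : (V : ℝ) ≤ 4 * (N : ℝ) ^ k := by
          refine hVle.trans ?_
          calc 4 * (Y : ℝ) ^ k / √(N : ℝ) ≤ 4 * (Y : ℝ) ^ k := div_le_self (by positivity) hsN1
            _ ≤ 4 * (N : ℝ) ^ k := by
              have := pow_le_pow_left₀ (by positivity) hYNr k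
              linarith
        calc 4 * (q : ℝ) ^ k * V ≤ 4 * (N : ℝ) ^ (2 * k) * (4 * (N : ℝ) ^ k) := by gcongr
          _ = 16 * (N : ℝ) ^ (3 * k) := by
            rw [show 3 * k = 2 * k + k by ring, pow_add]; ring
      have h3 : (|(a : ℝ)| * V) ^ ε' ≤ 16 ^ ε' * (N : ℝ) ^ (ε / 2) := by
        calc (|(a : ℝ)| * V) ^ ε' ≤ (16 * (N : ℝ) ^ (3 * k)) ^ ε' :=
              Real.rpow_le_rpow (by positivity) h2 hε'0.le
          _ = 16 ^ ε' * (N : ℝ) ^ ((3 * k : ℕ) * ε') := by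
              rw [Real.mul_rpow (by norm_num) (by positivity), ← Real.rpow_natCast, ← Real.rpow_mul hN0r.le]
          _ ≤ 16 ^ ε' * (N : ℝ) ^ (ε / 2) := by
              apply mul_le_mul_of_nonneg_left _ (by positivity)
              apply Real.rpow_le_rpow_of_exponent_le hN1r
              rw [hε']
              push_cast
              rw [mul_div_assoc', div_le_iff₀ hk0]
              nlinarith [hε.le, (Nat.cast_nonneg k : (0 : ℝ) ≤ k), mul_nonneg hε.le (Nat.cast_nonneg k : (0 : ℝ) ≤ k)]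
      have h4 : √(N : ℝ) + V ≤ 4 * X := by
        rw [hX]
        have : 4 * (Y : ℝ) ^ k / √(N : ℝ) = 4 * ((Y : ℝ) ^ k / √(N : ℝ)) := by ring
        rw [this] at hVle
        linarith
      calc ((WW N V a).ncard : ℝ) ≤ C * (|(a : ℝ)| * V) ^ ε' * (√(N : ℝ) + V) := h1
        _ ≤ C * (16 ^ ε' * (N : ℝ) ^ (ε / 2)) * (4 * X) := by gcongr
        _ = 4 * C * (16 ^ ε' * (N : ℝ) ^ (ε / 2)) * X := by ring
  -- double counting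
  have hcard : ∀ d ∈ Finset.Ioc N (2 * N), ((bad d Y k).card : ℝ) ≤
      ∑ w ∈ Finset.Icc 1 Y ×ˢ Finset.Icc 1 Y,
        (((if ∃ x y : ℤ, 0 ≤ x ∧ 1 ≤ y ∧ x ^ 2 - (d : ℤ) * y ^ 2 = 4 * ((w.1 * w.2 : ℕ) : ℤ) ^ k ∧
          (x : ℝ) + y * √(d : ℝ) ≤ 4 * (Y : ℝ) ^ k then 1 else 0 : ℕ) : ℝ) +
        ((if ∃ x y : ℤ, 0 ≤ x ∧ 1 ≤ y ∧ x ^ 2 - (d : ℤ) * y ^ 2 = -(4 * ((w.1 * w.2 : ℕ) : ℤ) ^ k) ∧
          (x : ℝ) + y * √(d : ℝ) ≤ 4 * (Y : ℝ) ^ k then 1 else 0 : ℕ) : ℝ)) := by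
    intro d _
    have hsub : bad d Y k ⊆ Finset.Icc 1 Y ×ˢ Finset.Icc 1 Y := by
      intro w hw
      unfold bad at hw
      rw [Finset.mem_filter, Finset.mem_product] at hw
      unfold spl at hw
      simp only [Finset.mem_filter, Finset.mem_range] at hw
      rw [Finset.mem_product, Finset.mem_Icc, Finset.mem_Icc]
      obtain ⟨⟨⟨h1, h2, -⟩, ⟨h3, h4, -⟩⟩, -⟩ := hw
      exact ⟨⟨h2.one_lt.le, by omega⟩, ⟨h4.one_lt.le, by omega⟩⟩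
    have h1 : ((bad d Y k).card : ℝ) = ∑ w ∈ bad d Y k, (1 : ℝ) := by simp
    rw [h1]
    refine le_trans (Finset.sum_le_sum (g := fun w : ℕ × ℕ =>
        (((if ∃ x y : ℤ, 0 ≤ x ∧ 1 ≤ y ∧ x ^ 2 - (d : ℤ) * y ^ 2 = 4 * ((w.1 * w.2 : ℕ) : ℤ) ^ k ∧
          (x : ℝ) + y * √(d : ℝ) ≤ 4 * (Y : ℝ) ^ k then 1 else 0 : ℕ) : ℝ) +
        ((if ∃ x y : ℤ, 0 ≤ x ∧ 1 ≤ y ∧ x ^ 2 - (d : ℤ) * y ^ 2 = -(4 * ((w.1 * w.2 : ℕ) : ℤ) ^ k) ∧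
          (x : ℝ) + y * √(d : ℝ) ≤ 4 * (Y : ℝ) ^ k then 1 else 0 : ℕ) : ℝ))) ?_) ?_
    · intro w hw
      unfold bad at hw
      rw [Finset.mem_filter] at hw
      obtain ⟨-, -, x, y, hx, hy, hor, hle⟩ := hw
      rcases hor with h2 | h2
      · have h3 : ∃ x y : ℤ, 0 ≤ x ∧ 1 ≤ y ∧ x ^ 2 - (d : ℤ) * y ^ 2 = 4 * ((w.1 * w.2 : ℕ) : ℤ) ^ k ∧
          (x : ℝ) + y * √(d : ℝ) ≤ 4 * (Y : ℝ) ^ k := ⟨x, y, hx, hy, h2, hle⟩
        rw [if_pos h3]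
        have : (0 : ℝ) ≤ ((if ∃ x y : ℤ, 0 ≤ x ∧ 1 ≤ y ∧
          x ^ 2 - (d : ℤ) * y ^ 2 = -(4 * ((w.1 * w.2 : ℕ) : ℤ) ^ k) ∧
          (x : ℝ) + y * √(d : ℝ) ≤ 4 * (Y : ℝ) ^ k then 1 else 0 : ℕ) : ℝ) := Nat.cast_nonneg _
        push_cast at this ⊢
        linarith
      · have h3 : ∃ x y : ℤ, 0 ≤ x ∧ 1 ≤ y ∧ x ^ 2 - (d : ℤ) * y ^ 2 = -(4 * ((w.1 * w.2 : ℕ) : ℤ) ^ k) ∧
          (x : ℝ) + y * √(d : ℝ) ≤ 4 * (Y : ℝ) ^ k := ⟨x, y, hx, hy, h2, hle⟩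
        rw [if_pos h3]
        have : (0 : ℝ) ≤ ((if ∃ x y : ℤ, 0 ≤ x ∧ 1 ≤ y ∧
          x ^ 2 - (d : ℤ) * y ^ 2 = 4 * ((w.1 * w.2 : ℕ) : ℤ) ^ k ∧
          (x : ℝ) + y * √(d : ℝ) ≤ 4 * (Y : ℝ) ^ k then 1 else 0 : ℕ) : ℝ) := Nat.cast_nonneg _
        push_cast at this ⊢
        linarith
    · apply Finset.sum_le_sum_of_subset_of_nonneg hsub
      intro w _ _
      positivity
  refine (Finset.sum_le_sum hcard).trans ?_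
  rw [Finset.sum_comm]
  have hw : ∀ w ∈ Finset.Icc 1 Y ×ˢ Finset.Icc 1 Y,
      ∑ d ∈ Finset.Ioc N (2 * N),
        (((if ∃ x y : ℤ, 0 ≤ x ∧ 1 ≤ y ∧ x ^ 2 - (d : ℤ) * y ^ 2 = 4 * ((w.1 * w.2 : ℕ) : ℤ) ^ k ∧
          (x : ℝ) + y * √(d : ℝ) ≤ 4 * (Y : ℝ) ^ k then 1 else 0 : ℕ) : ℝ) +
        ((if ∃ x y : ℤ, 0 ≤ x ∧ 1 ≤ y ∧ x ^ 2 - (d : ℤ) * y ^ 2 = -(4 * ((w.1 * w.2 : ℕ) : ℤ) ^ k) ∧
          (x : ℝ) + y * √(d : ℝ) ≤ 4 * (Y : ℝ) ^ k then 1 else 0 : ℕ) : ℝ)) ≤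
      8 * C * (16 ^ ε' * (N : ℝ) ^ (ε / 2)) * X := by
    intro w hw
    rw [Finset.mem_product, Finset.mem_Icc, Finset.mem_Icc] at hw
    obtain ⟨⟨h1, h2⟩, ⟨h3, h4⟩⟩ := hw
    have hq1 : 1 ≤ w.1 * w.2 := Nat.mul_le_mul h1 h3
    have hq2 : ((w.1 * w.2 : ℕ) : ℝ) ≤ (Y : ℝ) ^ 2 := by
      have : w.1 * w.2 ≤ Y ^ 2 := by rw [sq]; exact Nat.mul_le_mul h2 h4
      exact_mod_cast this
    have e1 := hone _ hq1 hq2 _ (Or.inl rfl)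
    have e2 := hone _ hq1 hq2 _ (Or.inr rfl)
    have f1 := one N Y k hN1 (4 * ((w.1 * w.2 : ℕ) : ℤ) ^ k)
    have f2 := one N Y k hN1 (-(4 * ((w.1 * w.2 : ℕ) : ℤ) ^ k))
    rw [Finset.sum_add_distrib, ← Nat.cast_sum, ← Nat.cast_sum, ← Finset.card_filter,
      ← Finset.card_filter]
    have g1 := (Nat.cast_le (α := ℝ)).2 f1
    have g2 := (Nat.cast_le (α := ℝ)).2 f2
    linarith
  refine (Finset.sum_le_sum hw).trans ?_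
  rw [Finset.sum_const, Finset.card_product, Nat.card_Icc, Nat.add_sub_cancel, nsmul_eq_mul]
  push_cast
  have hNe : (N : ℝ) ^ ε = (N : ℝ) ^ (ε / 2) * (N : ℝ) ^ (ε / 2) := by
    rw [← Real.rpow_add hN0r]
    congr 1
    ring
  have hp : 0 ≤ (N : ℝ) ^ (ε / 2) := by positivity
  calc (Y : ℝ) * Y * (8 * C * (16 ^ ε' * (N : ℝ) ^ (ε / 2)) * X)
      = (8 * C * 16 ^ ε') * ((N : ℝ) ^ (ε / 2) * (Y : ℝ) ^ 2 * X) := by ring
    _ ≤ (N : ℝ) ^ (ε / 2) * ((N : ℝ) ^ (ε / 2) * (Y : ℝ) ^ 2 * X) :=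
        mul_le_mul_of_nonneg_right hNN (by positivity)
    _ = (N : ℝ) ^ ε * (Y : ℝ) ^ 2 * X := by rw [hNe]; ring

end Pool.Agent.H32.AD.BA
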